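import Pool.Agent.Helper97.PC.Explicit2
import Pool.Agent.Helper2.PC.CUT
import Pool.Agent.Helper76.PC.Iter
import Pool.Agent.Helper18.PC.PERT
import Pool.Agent.Helper34.PC.SC

/-!
# MP_b1e538: tails of zero modes and the Lagrange multiplier at the critical charge

If `E(z) ≥ -e`, every zero mode satisfies a tail inequality; a zero mode with
`ε ‖B‖² = z ∫ |ψ|²/|x|` (a minimiser of `z ↦ z_c`) has tail mass `O(R^(-2))` and a Lagrange
multiplier `η` in `L²` with `‖η‖² ≤ e`.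
-/

open MeasureTheory Helper97.PC

namespace Pool.Agent.Results.MP_b1e538_mp.TailAndMultiplier

noncomputable section

/-- The tail mass `m(R)`, the integral of `|ψ|²` over `|x| > R`. -/
def tailMass (ψ : R3 → Sp) (R : ℝ) : ℝ := ∫ x in {x | R < ‖x‖}, ‖ψ x‖ ^ 2

/-- `σ·(p-A)η = (ε ‖B‖² - z/|x|) ψ`, weakly. -/
def EqPsi (ε z : ℝ) (ψ : R3 → Sp) (A B : Fin 3 → R3 → ℝ) (η : R3 → Sp) : Prop :=
  ∀ θ, Test θ → ∫ x, (inner ℂ (η x) (Pi θ (fun j => pd j θ) A x)).re =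
    ∫ x, (ε * mag B - z / ‖x‖) * (inner ℂ (ψ x) (θ x)).re

/-- `ε curl B = - Re ⟨η, σ ψ⟩` up to a gradient, weakly. -/
def EqA (ε : ℝ) (ψ : R3 → Sp) (B : Fin 3 → R3 → ℝ) (η : R3 → Sp) : Prop :=
  ∀ a, TestA a → ε * (∫ x, ∑ j, B j x * curlA a j x) =
    - ∫ x, ∑ j, a j x * (inner ℂ (η x) (sig j (ψ x))).re

end

theorem result :
    ∃ C₀ : ℝ, ∀ ε z e : ℝ, 0 < ε → 0 < z → 0 ≤ e → (∀ v ∈ energies ε z, -e ≤ v) →
      ∀ ψ D A B, InF ψ D A B →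
        (∀ R : ℝ, 0 < R →
          ε * mag B * tailMass ψ (2 * R) ≤ (ε * mag B - z * cou ψ) +
            z / R * tailMass ψ R + C₀ * Real.sqrt e / R * Real.sqrt (tailMass ψ R)) ∧
        (ε * mag B = z * cou ψ →
          (∃ C : ℝ, ∀ R : ℝ, 0 < R → tailMass ψ R ≤ C / R ^ 2) ∧
          ∃ η : R3 → Sp, MemLp η 2 volume ∧ nrm η ≤ e ∧ EqPsi ε z ψ A B η ∧ EqA ε ψ B η) := by
  obtain ⟨C₀, hC₀, hT⟩ := TAILe Helper34.PC.SC Helper2.PC.CUT
  refine ⟨C₀, ?_⟩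
  intro ε z e hε hz he0 he ψ D A B hF
  refine ⟨fun R hR => hT ε z e hε hz he0 he ψ D A B hF R hR, ?_⟩
  intro hmin
  constructor
  · exact TAIL (QH Helper34.PC.SC NRM) Helper2.PC.CUT Helper76.PC.iter ε z hε hz
      (Finite.of_lower he) ψ D A B hF hmin
  · have h1 : ∀ θ a, Test θ → TestA a → MemLp (Lin ψ A θ a) 2 volume ∧
        |dG ε z ψ B θ a| ≤ (2 * Real.sqrt e) * Real.sqrt (∫ x, ‖Lin ψ A θ a x‖ ^ 2) := by
      intro θ a hθ ha
      exact FOCe Helper18.PC.PERT (fun ψ D A B h => QHe Helper34.PC.SC he0 he h) hF hmin hθ ha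
    obtain ⟨η, hη, hn, h2, h3⟩ := MULTe (by positivity) hF h1
    refine ⟨η, hη, ?_, h2, h3⟩
    have e1 : (2 * Real.sqrt e / 2) ^ 2 = e := by
      rw [mul_div_cancel_left₀ _ (two_ne_zero), Real.sq_sqrt he0]
    rw [e1] at hn
    exact hn

end Pool.Agent.Results.MP_b1e538_mp.TailAndMultiplier
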